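import Mathlib

/-! # MP_07c750, project FS (SpecE), row STH with the clause `Continuous θ'` -/

set_option autoImplicit false
open MeasureTheory Set

namespace Pool.Agent.FS

/-- row STH of SpecE with the additional clause `Continuous θ'` -/
def STH2_stmt : Prop := ∀ ε : ℝ, 0 < ε → ε < 1 / 2 → ∃ (θ θ' : ℝ → ℝ) (C : ℝ), 1 ≤ C ∧ (∀ s, HasDerivAt θ (θ' s) s) ∧ (∀ s, 0 ≤ θ s ∧ θ s ≤ 1) ∧ (∀ s, |θ' s| ≤ C) ∧ Continuous θ' ∧ (∀ s, 1 - ε ≤ s → θ s = 1) ∧ ∀ s, s ≤ 1 - 2 * ε → θ s = 0

theorem STH2_proof : STH2_stmt := by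
  intro ε h0 h1
  set θ : ℝ → ℝ := fun s => Real.smoothTransition ((s - (1 - 2 * ε)) / ε) with hθ
  have hone : ∀ s, 1 - ε ≤ s → θ s = 1 := by
    intro s hs
    rw [hθ]
    refine Real.smoothTransition.one_of_one_le ?_
    rw [le_div_iff₀ h0]
    linarith
  have hzero : ∀ s, s ≤ 1 - 2 * ε → θ s = 0 := by
    intro s hs
    rw [hθ]
    refine Real.smoothTransition.zero_of_nonpos ?_
    exact div_nonpos_of_nonpos_of_nonneg (by linarith) h0.le
  have hd : ContDiff ℝ 1 θ := by
    refine Real.smoothTransition.contDiff.comp ?_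
    fun_prop
  have hc : Continuous (deriv θ) := hd.continuous_deriv le_rfl
  obtain ⟨C, hC⟩ := (isCompact_Icc (a := 1 - 2 * ε) (b := 1 - ε)).exists_bound_of_continuousOn hc.continuousOn
  refine ⟨θ, deriv θ, max C 1, le_max_right _ _, fun s => (hd.differentiable one_ne_zero s).hasDerivAt,
    fun s => ⟨Real.smoothTransition.nonneg _, Real.smoothTransition.le_one _⟩, fun s => ?_, hc, hone, hzero⟩
  rcases lt_or_ge s (1 - 2 * ε) with h2 | h2
  · have h3 : θ =ᶠ[nhds s] fun _ => 0 := by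
      filter_upwards [Iio_mem_nhds h2] with t ht
      exact hzero t (le_of_lt ht)
    rw [h3.deriv_eq, deriv_const, abs_zero]
    exact zero_le_one.trans (le_max_right _ _)
  · rcases le_or_gt s (1 - ε) with h3 | h3
    · exact (hC s ⟨h2, h3⟩).trans (le_max_left _ _)
    · have h4 : θ =ᶠ[nhds s] fun _ => 1 := by
        filter_upwards [Ioi_mem_nhds h3] with t ht
        exact hone t (le_of_lt ht)
      rw [h4.deriv_eq, deriv_const, abs_zero]
      exact zero_le_one.trans (le_max_right _ _)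

end Pool.Agent.FS
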