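import Pool.Agent.helper52.FS.SpecE
import Pool.Agent.helper94.FS.STH2

/-! # MP_07c750, project FS, row STH of SpecE -/

set_option autoImplicit false

namespace Pool.Agent.FS

theorem STH_proof : STH_stmt := by
  intro ε h0 h1
  obtain ⟨θ, θ', C, h2, h3, h4, h5, _, h7, h8⟩ := STH2_proof ε h0 h1
  exact ⟨θ, θ', C, h2, h3, h4, h5, h7, h8⟩

end Pool.Agent.FS
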